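import Mathlib

/-! Value at `-1` of the numerator polynomials attached to ternary partitions. -/

namespace Pool.Agent.Results.MP_6f4f36_nt.ValueAtMinusOne

open Polynomial Finset

/-- The ternary partitions of `n`: all parts are powers of `3`. -/
noncomputable def T (n : ℕ) : Finset (Nat.Partition n) :=
  by classical exact Finset.univ.filter fun p => ∀ i ∈ p.parts, ∃ j : ℕ, i = 3 ^ j

/-- `h_λ(x) = ∏_{i=1}^n (1+x^i)^{⌊n/i⌋ - m_λ(i)}`. -/
noncomputable def h {n : ℕ} (p : Nat.Partition n) : ℤ[X] :=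
  ∏ i ∈ Finset.Icc 1 n, (1 + X ^ i) ^ (n / i - p.parts.count i)

/-- `G` is the monic greatest common divisor in `ℤ[x]` of the `h_λ`, `λ` ternary partition
of `n`. -/
def IsG (n : ℕ) (G : ℤ[X]) : Prop :=
  G.Monic ∧ (∀ p ∈ T n, G ∣ h p) ∧ ∀ D : ℤ[X], (∀ p ∈ T n, D ∣ h p) → D ∣ G

/-- `num` is the numerator polynomial: `num = (∑ h_λ) / G`. -/
def IsNum (n : ℕ) (num : ℤ[X]) : Prop :=
  ∃ G, IsG n G ∧ G * num = ∑ p ∈ T n, h p

theorem IsG_unique {n : ℕ} {G G' : ℤ[X]} (h1 : IsG n G) (h2 : IsG n G') : G = G' :=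
  Polynomial.eq_of_monic_of_associated h1.1 h2.1
    (associated_of_dvd_dvd (h2.2.2 _ h1.2.1) (h1.2.2 _ h2.2.1))

/-- the factor `Ψ_l` -/
noncomputable def Psi : ℕ → ℤ[X]
  | 0 => 1 + X
  | (l + 1) => 1 - X ^ (3 ^ l) + X ^ (2 * 3 ^ l)

theorem prod_Psi (j : ℕ) : ∏ l ∈ range (j + 1), Psi l = 1 + X ^ (3 ^ j) := by
  induction j with
  | zero => simp [Psi]
  | succ j ih =>
    rw [prod_range_succ, ih, Psi]
    ring

theorem Psi_monic (l : ℕ) : (Psi l).Monic := by
  have : ∀ l : ℕ, (∏ i ∈ range l, Psi i) ≠ 0 ∧ (∏ i ∈ range l, Psi i).Monic := by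
    intro l
    rcases l with _ | l
    · simp
    · rw [prod_Psi]
      have h1 : (1 + X ^ 3 ^ l : ℤ[X]).Monic := by
        have := monic_X_pow_add_C (1 : ℤ) (n := 3 ^ l) (by positivity)
        rwa [C_1, add_comm] at this
      exact ⟨h1.ne_zero, h1⟩
  have h1 := (this (l + 1)).2
  rw [prod_range_succ] at h1
  exact (this l).2.of_mul_monic_left h1

theorem eval_Psi (l : ℕ) : (Psi l).eval (-1) = if l = 0 then 0 else 3 := by
  rcases l with _ | l
  · simp [Psi]
  · have h1 : ((-1 : ℤ)) ^ (3 ^ l) = -1 := Odd.neg_one_pow (Odd.pow (by decide))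
    simp [Psi, h1, mul_comm 2 (3 ^ l), pow_mul]

/-- two distinct `Ψ`s have no common irreducible divisor -/
theorem Psi_coprime {D : ℤ[X]} (hD : Irreducible D) {l k : ℕ} (hlk : l < k)
    (h1 : D ∣ Psi l) (h2 : D ∣ Psi k) : False := by
  obtain ⟨c, rfl⟩ : ∃ c, k = l + c + 1 := ⟨k - l - 1, by omega⟩
  have h3 : D ∣ 1 + X ^ (3 ^ (l + c)) := by
    rw [← prod_Psi]
    exact h1.trans (Finset.dvd_prod_of_mem _ (by simp))
  have h4 : D ∣ C 3 := by
    have : (C 3 : ℤ[X]) = Psi (l + c + 1) - (1 + X ^ (3 ^ (l + c))) * (X ^ (3 ^ (l + c)) - 2) := by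
      simp only [Psi, map_ofNat]
      ring
    rw [this]
    exact dvd_sub h2 (dvd_mul_of_dvd_left h3 _)
  have h5 : D.natDegree = 0 := by
    have := natDegree_le_of_dvd h4 (by simp)
    simpa using this
  rw [natDegree_eq_zero] at h5
  obtain ⟨d, rfl⟩ := h5
  have h6 : (C d : ℤ[X]) ∣ Psi l := h1
  rw [C_dvd_iff_dvd_coeff] at h6
  have h7 := h6 (Psi l).natDegree
  rw [coeff_natDegree, (Psi_monic l).leadingCoeff] at h7
  exact hD.not_isUnit (isUnit_C.mpr (isUnit_of_dvd_one h7))


theorem mem_T {n : ℕ} (p : Nat.Partition n) :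
    p ∈ T n ↔ ∀ i ∈ p.parts, ∃ j : ℕ, i = 3 ^ j := by
  classical
  simp [T]

theorem lt_three_pow (n : ℕ) : n < 3 ^ n := Nat.lt_pow_self (by norm_num)

theorem three_pow_inj {i j : ℕ} (h : 3 ^ i = 3 ^ j) : i = j :=
  Nat.pow_right_injective (le_refl 2 |>.trans (by norm_num)) h

/-- the multiplicities of a ternary partition -/
theorem sum_mult {n : ℕ} (p : Nat.Partition n) (hp : p ∈ T n) :
    ∑ j ∈ range (n + 1), p.parts.count (3 ^ j) * 3 ^ j = n := by
  classical
  rw [mem_T] at hp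
  have h1 : ∑ i ∈ (range (n + 1)).image (fun j => 3 ^ j), p.parts.count i * i = n := by
    have h2 : ∑ i ∈ p.parts.toFinset, p.parts.count i * i = n := by
      have := Finset.sum_multiset_count p.parts
      simp only [smul_eq_mul] at this
      rw [← this, p.parts_sum]
    refine Eq.trans ?_ h2
    symm
    apply Finset.sum_subset
    · intro i hi
      rw [Multiset.mem_toFinset] at hi
      obtain ⟨j, rfl⟩ := hp i hi
      rw [Finset.mem_image]
      refine ⟨j, ?_, rfl⟩
      rw [mem_range]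
      have h3 : 3 ^ j ≤ n := by
        rw [← p.parts_sum]; exact Multiset.le_sum_of_mem hi
      have := lt_three_pow j
      omega
    · intro i _ hi
      rw [Multiset.mem_toFinset] at hi
      rw [Multiset.count_eq_zero_of_notMem hi, zero_mul]
  rwa [Finset.sum_image (fun i _ j _ hij => three_pow_inj hij)] at h1

theorem sum_mult_le {n : ℕ} (p : Nat.Partition n) (hp : p ∈ T n) (l : ℕ) :
    ∑ j ∈ Finset.Ico l (n + 1), p.parts.count (3 ^ j) ≤ n / 3 ^ l := by
  rw [Nat.le_div_iff_mul_le (by positivity), Finset.sum_mul]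
  calc ∑ j ∈ Finset.Ico l (n + 1), p.parts.count (3 ^ j) * 3 ^ l
      ≤ ∑ j ∈ Finset.Ico l (n + 1), p.parts.count (3 ^ j) * 3 ^ j := by
        apply Finset.sum_le_sum
        intro j hj
        rw [Finset.mem_Ico] at hj
        exact Nat.mul_le_mul_left _ (Nat.pow_le_pow_right (by norm_num) hj.1)
    _ ≤ ∑ j ∈ range (n + 1), p.parts.count (3 ^ j) * 3 ^ j := by
        apply Finset.sum_le_sum_of_subset
        intro j hj
        rw [Finset.mem_Ico] at hj
        rw [mem_range]; exact hj.2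
    _ = n := sum_mult p hp

theorem count_le {n : ℕ} (p : Nat.Partition n) (i : ℕ) (hi : 0 < i) :
    p.parts.count i ≤ n / i := by
  rw [Nat.le_div_iff_mul_le hi]
  obtain ⟨t, ht⟩ := Multiset.le_iff_exists_add.mp
    (Multiset.le_count_iff_replicate_le.mp (le_refl (p.parts.count i)))
  have h2 := p.parts_sum
  rw [ht, Multiset.sum_add, Multiset.sum_replicate, smul_eq_mul] at h2
  omega

/-- the common factor coming from the indices that are not powers of `3` -/
noncomputable def Cf (n : ℕ) : ℤ[X] :=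
  ∏ i ∈ Finset.Icc 1 n \ (range (n + 1)).image (fun j => 3 ^ j), (1 + X ^ i) ^ (n / i)

/-- the monic gcd -/
noncomputable def G (n : ℕ) : ℤ[X] :=
  Cf n * ∏ l ∈ range (n + 1), Psi l ^ (∑ j ∈ Finset.Ico (l + 1) (n + 1), n / 3 ^ j)

/-- the cofactor -/
noncomputable def u {n : ℕ} (p : Nat.Partition n) : ℤ[X] :=
  ∏ l ∈ range (n + 1), Psi l ^ (n / 3 ^ l - ∑ j ∈ Finset.Ico l (n + 1), p.parts.count (3 ^ j))

theorem h_eq {n : ℕ} (p : Nat.Partition n) (hp : p ∈ T n) : h p = G n * u p := by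
  classical
  set P := (range (n + 1)).image (fun j => 3 ^ j) with hP
  have h1 : h p = (∏ i ∈ Finset.Icc 1 n \ P, (1 + X ^ i) ^ (n / i)) *
      ∏ j ∈ range (n + 1), (1 + X ^ (3 ^ j)) ^ (n / 3 ^ j - p.parts.count (3 ^ j)) := by
    unfold h
    rw [← Finset.prod_sdiff (Finset.inter_subset_left : Finset.Icc 1 n ∩ P ⊆ Finset.Icc 1 n)]
    congr 1
    · rw [Finset.sdiff_inter_self_left]
      apply Finset.prod_congr rfl
      intro i hi
      rw [Finset.mem_sdiff, Finset.mem_Icc] at hi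
      have : p.parts.count i = 0 := by
        apply Multiset.count_eq_zero_of_notMem
        intro hm
        rw [mem_T] at hp
        obtain ⟨j, rfl⟩ := hp i hm
        apply hi.2
        rw [hP, Finset.mem_image]
        refine ⟨j, ?_, rfl⟩
        have := lt_three_pow j
        rw [mem_range]; omega
      rw [this, Nat.sub_zero]
    · rw [Finset.prod_subset (Finset.inter_subset_right : Finset.Icc 1 n ∩ P ⊆ P), hP,
        Finset.prod_image (fun i _ j _ hij => three_pow_inj hij)]
      intro i hi hi2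
      rw [Finset.mem_inter, not_and_or] at hi2
      rcases hi2 with hi2 | hi2
      · rw [hP, Finset.mem_image] at hi
        obtain ⟨j, _, rfl⟩ := hi
        rw [Finset.mem_Icc, not_and_or] at hi2
        have : 0 < 3 ^ j := by positivity
        have h3 : n / 3 ^ j = 0 := Nat.div_eq_of_lt (by omega)
        rw [h3, Nat.zero_sub, pow_zero]
      · exact absurd hi hi2
  rw [h1]
  unfold G u Cf
  rw [mul_assoc]
  congr 1
  rw [← Finset.prod_mul_distrib]
  have h2 : ∏ j ∈ range (n + 1), (1 + X ^ (3 ^ j) : ℤ[X]) ^ (n / 3 ^ j - p.parts.count (3 ^ j)) =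
      ∏ l ∈ range (n + 1), ∏ j ∈ Finset.Ico l (n + 1),
        Psi l ^ (n / 3 ^ j - p.parts.count (3 ^ j)) := by
    have : ∀ j ∈ range (n + 1), (1 + X ^ (3 ^ j) : ℤ[X]) ^ (n / 3 ^ j - p.parts.count (3 ^ j)) =
        ∏ l ∈ range (j + 1), Psi l ^ (n / 3 ^ j - p.parts.count (3 ^ j)) := by
      intro j _
      rw [← prod_Psi, Finset.prod_pow]
    rw [Finset.prod_congr rfl this]
    apply Finset.prod_comm'
    intro x y
    simp only [mem_range, Finset.mem_Ico]
    omega
  rw [h2]
  apply Finset.prod_congr rfl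
  intro l hl
  rw [mem_range] at hl
  rw [Finset.prod_pow_eq_pow_sum, ← pow_add]
  congr 1
  have h3 : ∑ j ∈ Finset.Ico l (n + 1), (n / 3 ^ j - p.parts.count (3 ^ j)) +
      ∑ j ∈ Finset.Ico l (n + 1), p.parts.count (3 ^ j) = ∑ j ∈ Finset.Ico l (n + 1), n / 3 ^ j := by
    rw [← Finset.sum_add_distrib]
    apply Finset.sum_congr rfl
    intro j _
    exact Nat.sub_add_cancel (count_le p _ (by positivity))
  have h4 : ∑ j ∈ Finset.Ico l (n + 1), n / 3 ^ j =
      n / 3 ^ l + ∑ j ∈ Finset.Ico (l + 1) (n + 1), n / 3 ^ j :=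
    Finset.sum_eq_sum_Ico_succ_bot hl _
  have h5 := sum_mult_le p hp l
  omega


theorem one_add_X_pow_monic (i : ℕ) (hi : i ≠ 0) : (1 + X ^ i : ℤ[X]).Monic := by
  have := monic_X_pow_add_C (1 : ℤ) hi
  rwa [C_1, add_comm] at this

theorem G_monic (n : ℕ) : (G n).Monic := by
  classical
  apply Monic.mul
  · apply monic_prod_of_monic
    intro i hi
    rw [Finset.mem_sdiff, Finset.mem_Icc] at hi
    exact (one_add_X_pow_monic i (by omega)).pow _
  · apply monic_prod_of_monic
    intro i _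
    exact (Psi_monic i).pow _

/-- the ternary partition with `⌊n/3^l⌋` parts `3^l` and the other parts equal to `1` -/
def lam (n l : ℕ) : Nat.Partition n where
  parts := Multiset.replicate (n / 3 ^ l) (3 ^ l) + Multiset.replicate (n % 3 ^ l) 1
  parts_pos := by
    intro i hi
    rw [Multiset.mem_add] at hi
    rcases hi with hi | hi
    · rw [Multiset.eq_of_mem_replicate hi]; positivity
    · rw [Multiset.eq_of_mem_replicate hi]; positivity
  parts_sum := by
    simp [Nat.div_add_mod']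

theorem lam_mem (n l : ℕ) : lam n l ∈ T n := by
  rw [mem_T]
  intro i hi
  simp only [lam] at hi
  rw [Multiset.mem_add] at hi
  rcases hi with hi | hi
  · exact ⟨l, Multiset.eq_of_mem_replicate hi⟩
  · exact ⟨0, by rw [Multiset.eq_of_mem_replicate hi, pow_zero]⟩

theorem u_lam (n l : ℕ) (hl : l < n + 1) : ∃ E : ℕ → ℕ,
    u (lam n l) = ∏ i ∈ range (n + 1), Psi i ^ E i ∧ E l = 0 := by
  refine ⟨_, rfl, ?_⟩
  have h1 : n / 3 ^ l ≤ (lam n l).parts.count (3 ^ l) := by
    simp only [lam]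
    rw [Multiset.count_add, Multiset.count_replicate_self]
    omega
  have h2 : (lam n l).parts.count (3 ^ l) ≤
      ∑ j ∈ Finset.Ico l (n + 1), (lam n l).parts.count (3 ^ j) :=
    Finset.single_le_sum (f := fun j => (lam n l).parts.count (3 ^ j))
      (fun _ _ => Nat.zero_le _) (Finset.mem_Ico.mpr ⟨le_rfl, hl⟩)
  omega

theorem G_isG (n : ℕ) : IsG n (G n) := by
  classical
  refine ⟨G_monic n, fun p hp => ⟨u p, h_eq p hp⟩, ?_⟩
  intro D hD
  let _ : NormalizedGCDMonoid ℤ[X] := UniqueFactorizationMonoid.toNormalizedGCDMonoid ℤ[X]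
  have h1 : D ∣ (T n).gcd fun p => G n * u p :=
    Finset.dvd_gcd fun p hp => by rw [← h_eq p hp]; exact hD p hp
  have h1' := h1.trans (Finset.gcd_mul_left' (T n) (fun p => u p) (G n)).dvd
  have h2 : IsUnit ((T n).gcd fun p => u p) := by
    by_contra hu
    have h0 : ((T n).gcd fun p => u p) ≠ 0 := by
      intro h
      have h3 : ((T n).gcd fun p => u p) ∣ u (lam n 0) := Finset.gcd_dvd (lam_mem n 0)
      rw [h, zero_dvd_iff] at h3
      have h4 : (u (lam n 0)).Monic := by
        apply monic_prod_of_monic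
        intro i _
        exact (Psi_monic i).pow _
      exact h4.ne_zero h3
    obtain ⟨q, hq, hqd⟩ := WfDvdMonoid.exists_irreducible_factor hu h0
    have hprime : Prime q := hq.prime
    have h3 : ∀ p ∈ T n, ∃ l ∈ range (n + 1), q ∣ Psi l ^ (n / 3 ^ l - ∑ j ∈ Finset.Ico l (n + 1), p.parts.count (3 ^ j)) := by
      intro p hp
      have h4 : q ∣ u p := hqd.trans (Finset.gcd_dvd hp)
      exact (hprime.dvd_finset_prod_iff _).mp h4
    obtain ⟨l, hl, hql⟩ := h3 (lam n 0) (lam_mem n 0)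
    rw [mem_range] at hl
    obtain ⟨E, hE, hE0⟩ := u_lam n l hl
    have h5 : q ∣ u (lam n l) := hqd.trans (Finset.gcd_dvd (lam_mem n l))
    rw [hE] at h5
    obtain ⟨k, hk, hqk⟩ := (hprime.dvd_finset_prod_iff _).mp h5
    have hkl : k ≠ l := by
      rintro rfl
      rw [hE0, pow_zero] at hqk
      exact hprime.not_dvd_one hqk
    have h6 := hprime.dvd_of_dvd_pow hql
    have h7 := hprime.dvd_of_dvd_pow hqk
    rcases lt_or_gt_of_ne hkl with h | h
    · exact Psi_coprime hq h h7 h6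
    · exact Psi_coprime hq h h6 h7
  exact h1'.trans (h2.mul_right_dvd.mpr dvd_rfl)

/-- the value at `-1` of the cofactor -/
theorem eval_u_lam (n : ℕ) : (u (lam n 0)).eval (-1) = 3 ^ (padicValNat 3 n.factorial) := by
  unfold u
  rw [eval_prod, Finset.prod_range_succ']
  have h0 : ∑ j ∈ Finset.Ico 0 (n + 1), (lam n 0).parts.count (3 ^ j) = n := by
    apply le_antisymm
    · have := sum_mult_le (lam n 0) (lam_mem n 0) 0
      simpa using this
    · obtain ⟨E, hE⟩ := u_lam n 0 (by omega)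
      have h2 : (lam n 0).parts.count (3 ^ 0) ≤
          ∑ j ∈ Finset.Ico 0 (n + 1), (lam n 0).parts.count (3 ^ j) :=
        Finset.single_le_sum (f := fun j => (lam n 0).parts.count (3 ^ j))
          (fun _ _ => Nat.zero_le _) (Finset.mem_Ico.mpr ⟨le_rfl, by omega⟩)
      have h3 : (lam n 0).parts.count (3 ^ 0) = n := by
        simp [lam, Nat.mod_one]
      omega
  have h1 : ∀ l ∈ range n, eval (-1) (Psi (l + 1) ^ (n / 3 ^ (l + 1) -
      ∑ j ∈ Finset.Ico (l + 1) (n + 1), (lam n 0).parts.count (3 ^ j))) =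
      (3 : ℤ) ^ (n / 3 ^ (l + 1)) := by
    intro l _
    have h2 : ∑ j ∈ Finset.Ico (l + 1) (n + 1), (lam n 0).parts.count (3 ^ j) = 0 := by
      apply Finset.sum_eq_zero
      intro j hj
      rw [Finset.mem_Ico] at hj
      apply Multiset.count_eq_zero_of_notMem
      simp only [lam, pow_zero, Nat.div_one, Nat.mod_one, Multiset.replicate_zero, add_zero]
      intro hm
      have h3 := Multiset.eq_of_mem_replicate hm
      have h4 : 3 ^ j = 3 ^ 0 := by rw [h3, pow_zero]
      have := three_pow_inj h4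
      omega
    rw [h2, Nat.sub_zero, eval_pow, eval_Psi, if_neg (by omega)]
  rw [Finset.prod_congr rfl h1, h0]
  simp only [pow_zero, Nat.div_one, Nat.sub_self, eval_one, mul_one]
  rw [Finset.prod_pow_eq_pow_sum]
  congr 1
  have h2 : Fact (Nat.Prime 3) := ⟨Nat.prime_three⟩
  rw [padicValNat_factorial (b := n + 1) (Nat.lt_succ_of_le (Nat.log_le_self 3 n))]
  rw [Finset.sum_Ico_eq_sum_range]
  apply Finset.sum_congr (by congr 1)
  intro i _
  rw [add_comm]

/-- other partitions contribute `0` -/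
theorem eval_u_ne {n : ℕ} (p : Nat.Partition n) (hp : p ∈ T n) (hne : p ≠ lam n 0) :
    (u p).eval (-1) = 0 := by
  unfold u
  rw [eval_prod, Finset.prod_range_succ']
  have h1 : ∑ j ∈ Finset.Ico 0 (n + 1), p.parts.count (3 ^ j) < n := by
    have hle : ∑ j ∈ Finset.Ico 0 (n + 1), p.parts.count (3 ^ j) ≤ n := by
      simpa using sum_mult_le p hp 0
    rcases lt_or_eq_of_le hle with h | h
    · exact h
    · exfalso
      apply hne
      have h2 := sum_mult p hp
      rw [← Finset.range_eq_Ico] at h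
      -- all multiplicities with j ≥ 1 vanish
      have h3 : ∀ j ∈ range (n + 1), p.parts.count (3 ^ j) = p.parts.count (3 ^ j) * 3 ^ j := by
        rw [← Finset.sum_eq_sum_iff_of_le]
        · rw [h, h2]
        · intro j _
          exact Nat.le_mul_of_pos_right _ (by positivity)
      have h4 : ∀ i ∈ p.parts, i = 1 := by
        intro i hi
        obtain ⟨j, rfl⟩ := (mem_T p).mp hp i hi
        have h5 : 3 ^ j ≤ n := by
          have := Multiset.le_sum_of_mem hi
          rwa [p.parts_sum] at this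
        have h6 := lt_three_pow j
        have h7 := h3 j (by rw [mem_range]; omega)
        have h8 : 0 < p.parts.count (3 ^ j) := Multiset.count_pos.mpr hi
        nlinarith [Nat.one_le_pow j 3 (by norm_num)]
      have h5 : p.parts = Multiset.replicate (Multiset.card p.parts) 1 :=
        Multiset.eq_replicate_card.mpr h4
      have h6 : Multiset.card p.parts = n := by
        have := p.parts_sum
        rw [h5, Multiset.sum_replicate, smul_eq_mul, mul_one] at this
        exact this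
      ext1
      rw [h5, h6]
      simp [lam, Nat.mod_one]
  have h2 : eval (-1) (Psi 0 ^ (n / 3 ^ 0 - ∑ j ∈ Finset.Ico 0 (n + 1), p.parts.count (3 ^ j))) = 0 := by
    rw [eval_pow, eval_Psi, if_pos rfl]
    apply zero_pow
    rw [pow_zero, Nat.div_one]
    omega
  rw [h2, mul_zero]

theorem num_eval {n : ℕ} {num : ℤ[X]} (hnum : IsNum n num) :
    num.eval (-1) = 3 ^ (padicValNat 3 n.factorial) := by
  classical
  obtain ⟨G', hG', hs⟩ := hnum
  rw [IsG_unique hG' (G_isG n)] at hs
  have h1 : ∑ p ∈ T n, h p = G n * ∑ p ∈ T n, u p := by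
    rw [Finset.mul_sum]
    exact Finset.sum_congr rfl fun p hp => h_eq p hp
  rw [h1] at hs
  have h2 := mul_left_cancel₀ (G_monic n).ne_zero hs
  rw [h2, eval_finsetSum, Finset.sum_eq_single_of_mem (lam n 0) (lam_mem n 0), eval_u_lam]
  intro p hp hne
  exact eval_u_ne p hp hne

theorem exists_num (n : ℕ) : ∃ num, IsNum n num := by
  refine ⟨∑ p ∈ T n, u p, G n, G_isG n, ?_⟩
  rw [Finset.mul_sum]
  exact Finset.sum_congr rfl fun p hp => (h_eq p hp).symm

/-- For every `n` the monic gcd `G` exists and is unique, the numerator polynomial exists and is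
unique, and with `s(n)` its value at `-1`: `s(1) = s(2) = 1` and
`s(3n) = s(3n+1) = s(3n+2) = 3^{v_3((3n)!)}` for all `n ≥ 1`. -/
theorem result :
    (∀ n : ℕ, (∃! G, IsG n G) ∧ ∃! num, IsNum n num) ∧
    (∀ num, IsNum 1 num → num.eval (-1) = 1) ∧
    (∀ num, IsNum 2 num → num.eval (-1) = 1) ∧
    (∀ n : ℕ, 1 ≤ n → ∀ j : ℕ, j ≤ 2 → ∀ num, IsNum (3 * n + j) num →
      num.eval (-1) = 3 ^ (padicValNat 3 (3 * n).factorial)) := by
  have h3 : Fact (Nat.Prime 3) := ⟨Nat.prime_three⟩
  refine ⟨fun n => ⟨⟨G n, G_isG n, fun G' hG' => IsG_unique hG' (G_isG n)⟩, ?_⟩, ?_, ?_, ?_⟩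
  · obtain ⟨num, hnum⟩ := exists_num n
    refine ⟨num, hnum, ?_⟩
    intro num' hnum'
    obtain ⟨G1, hG1, h1⟩ := hnum
    obtain ⟨G2, hG2, h2⟩ := hnum'
    rw [IsG_unique hG2 hG1, ← h1] at h2
    exact mul_left_cancel₀ hG1.1.ne_zero h2
  · intro num hnum
    rw [num_eval hnum]
    simp
  · intro num hnum
    rw [num_eval hnum]
    have : padicValNat 3 (Nat.factorial 2) = 0 :=
      padicValNat.eq_zero_of_not_dvd (by decide)
    rw [this, pow_zero]
  · intro n hn j hj num hnum
    rw [num_eval hnum]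
    congr 1
    exact padicValNat_factorial_mul_add n (by omega)

end Pool.Agent.Results.MP_6f4f36_nt.ValueAtMinusOne
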